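import Pool.Agent.S07160

/-!
# Jackson's problem: a `3`-diregular oriented graph on `13` vertices without a Hamilton cycle

Jackson asked in 1981 whether for every `d > 2` every `d`-diregular oriented graph with at most
`4 d + 1` vertices has a Hamilton cycle.  The answer is no for `d = 3`: there is a counterexample on
`13 = 4 * 3 + 1` vertices, and it stays strongly connected when any two vertices are deleted.
-/

set_option autoImplicit false

namespace Pool.Agent.Results.MP_0cd801_co.ThreeConnected

/-- The relation `A` is the arc relation of an oriented graph: there are no loops and no two opposite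
arcs. -/
def IsOriented {V : Type} (A : V → V → Prop) : Prop :=
  (∀ v, ¬ A v v) ∧ ∀ u v, A u v → ¬ A v u

/-- Every vertex has exactly `d` out-neighbours and exactly `d` in-neighbours. -/
def Diregular {V : Type} (d : ℕ) (A : V → V → Prop) : Prop :=
  ∀ v, {u | A v u}.ncard = d ∧ {u | A u v}.ncard = d

/-- After the deletion of any two (or one) of the vertices one can still walk from every remaining
vertex to every remaining vertex. -/
def RobustlyConnected {V : Type} (A : V → V → Prop) : Prop :=
  ∀ x y u v, u ≠ x → u ≠ y → v ≠ x → v ≠ y →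
    Relation.ReflTransGen (fun a b => A a b ∧ b ≠ x ∧ b ≠ y) u v

/-- The oriented graph with the `n` vertices of `V` has a Hamilton cycle: the vertices can be
numbered cyclically `c 0, c 1, ..., c (n - 1)` such that there is an arc from `c i` to `c (i + 1)` for
every `i` modulo `n`. -/
def HasHamiltonCycle {V : Type} (n : ℕ) (A : V → V → Prop) : Prop :=
  ∃ c : ZMod n → V, Function.Bijective c ∧ ∀ i, A (c i) (c (i + 1))

/-! ### walks by bit masks -/

open Pool.Agent.S07160 in
/-- the mask of the out-neighbours -/
def outMask (u : Fin 13) : ℕ := (out u.val).foldl (fun a w => a + 2 ^ w) 0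

/-- one step of the search -/
def grow (D m : ℕ) : ℕ :=
  ((List.finRange 13).foldl (fun a i => if m.testBit i.val then a ||| outMask i else a) m) &&& D

theorem foldl_testBit (m : ℕ) (v : ℕ) (l : List (Fin 13)) (a : ℕ) :
    (l.foldl (fun a i => if m.testBit i.val then a ||| outMask i else a) a).testBit v = true →
      a.testBit v = true ∨ ∃ i : Fin 13, m.testBit i.val = true ∧ (outMask i).testBit v = true := by
  induction l generalizing a with
  | nil => intro h; exact Or.inl h
  | cons j l ih =>
    intro h
    rw [List.foldl_cons] at h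
    rcases ih _ h with h1 | h1
    · split_ifs at h1 with h2
      · rw [Nat.testBit_or, Bool.or_eq_true] at h1
        rcases h1 with h1 | h1
        · exact Or.inl h1
        · exact Or.inr ⟨j, h2, h1⟩
      · exact Or.inl h1
    · exact Or.inr h1

theorem mask_adj : ∀ u v : Fin 13, (outMask u).testBit v.val = true →
    Pool.Agent.S07160.G.Adj u v := by
  decide +kernel

theorem grow_sound (D : ℕ) (R : Fin 13 → Fin 13 → Prop)
    (hR : ∀ a b : Fin 13, Pool.Agent.S07160.G.Adj a b → D.testBit b.val = true → R a b)
    (u : Fin 13) : ∀ k : ℕ, ∀ v : Fin 13, ((grow D)^[k] (2 ^ u.val)).testBit v.val = true →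
      Relation.ReflTransGen R u v := by
  intro k
  induction k with
  | zero =>
    intro v h
    rw [Function.iterate_zero, id, Nat.testBit_two_pow] at h
    have : u = v := Fin.ext (by simpa using h)
    rw [this]
  | succ k ih =>
    intro v h
    rw [Function.iterate_succ_apply'] at h
    unfold grow at h
    rw [Nat.testBit_and, Bool.and_eq_true] at h
    obtain ⟨h1, h2⟩ := h
    rcases foldl_testBit _ _ _ _ h1 with h3 | ⟨i, h3, h4⟩
    · exact ih v h3
    · exact (ih i h3).tail (hR i v (mask_adj i v h4) h2)

/-- the allowed vertices -/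
def allow (x y : Fin 13) : ℕ :=
  (List.finRange 13).foldl (fun a w => if w = x ∨ w = y then a else a + 2 ^ w.val) 0

theorem allow_spec : ∀ x y b : Fin 13, (allow x y).testBit b.val = true → b ≠ x ∧ b ≠ y := by
  decide +kernel

theorem allow_spec' : ∀ x y b : Fin 13, b ≠ x → b ≠ y → (allow x y).testBit b.val = true := by
  decide +kernel

theorem all_reached : ∀ x y u : Fin 13, u ≠ x → u ≠ y →
    (grow (allow x y))^[6] (2 ^ u.val) = allow x y := by
  decide +kernel

theorem strong (x y u v : Fin 13) (hux : u ≠ x) (huy : u ≠ y) (hvx : v ≠ x) (hvy : v ≠ y) :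
    Relation.ReflTransGen (fun a b => Pool.Agent.S07160.G.Adj a b ∧ b ≠ x ∧ b ≠ y) u v := by
  apply grow_sound (allow x y) _ (fun a b h1 h2 => ⟨h1, allow_spec x y b h2⟩) u 6 v
  rw [all_reached x y u hux huy]
  exact allow_spec' x y v hvx hvy

/-- **There is a `3`-diregular, `3`-connected oriented graph on `4 * 3 + 1` vertices which has no
Hamilton cycle.** -/
theorem result : ∃ A : Fin 13 → Fin 13 → Prop,
    IsOriented A ∧ Diregular 3 A ∧ RobustlyConnected A ∧ ¬ HasHamiltonCycle 13 A := by
  refine ⟨Pool.Agent.S07160.G.Adj, ⟨?_, ?_⟩, ?_, ?_, ?_⟩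
  · decide +kernel
  · decide +kernel
  · intro v
    constructor
    · rw [Set.ncard_eq_toFinset_card']
      revert v
      decide +kernel
    · rw [Set.ncard_eq_toFinset_card']
      revert v
      decide +kernel
  · exact strong
  · rintro ⟨c, hc, hA⟩
    obtain ⟨i0, hi0⟩ := hc.2 0
    have hinj : ∀ k l : ℕ, k < 13 → l < 13 → c (i0 + (k : ZMod 13)) = c (i0 + (l : ZMod 13)) →
        k = l := by
      intro k l hk hl h
      have h1 : (k : ZMod 13) = (l : ZMod 13) := add_left_cancel (hc.1 h)
      rw [ZMod.natCast_eq_natCast_iff'] at h1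
      omega
    have h0 : (c (i0 + ((0 : ℕ) : ZMod 13))).val = 0 := by
      rw [Nat.cast_zero, add_zero, hi0]
      rfl
    have h13 : (c (i0 + ((13 : ℕ) : ZMod 13))).val = 0 := by
      have : ((13 : ℕ) : ZMod 13) = 0 := by decide
      rw [this, add_zero, hi0]
      rfl
    have h1 : Pool.Agent.S07160.ext 12 (c (i0 + ((0 : ℕ) : ZMod 13))).val
        [(c (i0 + ((0 : ℕ) : ZMod 13))).val] = true :=
      Pool.Agent.S07160.ext_of_cycle (fun k => c (i0 + (k : ZMod 13))) hinj
      (fun k => by
        have := hA (i0 + (k : ZMod 13))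
        rw [add_assoc] at this
        push_cast
        exact this) h13 12 0 rfl
    rw [h0, Pool.Agent.S07160.ext_zero] at h1
    exact Bool.noConfusion h1

end Pool.Agent.Results.MP_0cd801_co.ThreeConnected
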